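import Pool.Agent.Work.MP_c48073_ag.Final
import Pool.Agent.Work.MP_c48073_ag.Sanity

/-!
Disproof of the normal distribution conjecture of Ein, Erman and Lazarsfeld for the Betti numbers
of Veronese embeddings: it fails for `P^8` and the row `q = 8`.
-/

namespace Pool.Agent.Results.MP_c48073_ag.NormalFails

open Pool.Agent.Work.MP_c48073_ag

/-- For `n = q = 8` there is no normalizing function `F(d)` with
`F(d) k_{p_d,8}(P^8, O(d)) → exp (- a^2 / 2)` for all real `a` and all integer sequences
`p_d = r_d / 2 + a sqrt(r_d) / 2 + o(sqrt(r_d))`. -/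
theorem result : ¬ NormalRow 8 8 := not_normalRow

end Pool.Agent.Results.MP_c48073_ag.NormalFails
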